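import Pool.Agent.Helper89.MSMain

/-!
The theory `T_Sqf` of the integers with predicates for the square-free integers is not
MS-measurable.  The language, the theory and the notion of an MS-measure are defined in
`Pool/Agent/Helper89/MSDefs.lean`.
-/

open FirstOrder

namespace Pool.Agent.Results.MP_c6a6a6_lc.NotMSMeasurable

open Pool.Agent.Helper89.MSDefs

universe u

/-- An `L`-structure is MS-measurable if it carries an MS-measure. -/
def MSMeasurable (L : FirstOrder.Language.{0, 0}) (M : Type u) [L.Structure M] : Prop :=
  ∃ h : (n : ℕ) → Set (Fin n → M) → ℕ × ℝ, IsMSMeasure L M h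

/-- No model of `T_Sqf` is MS-measurable. -/
theorem result : ∀ (M : Type u) [Lsqf.Structure M], M ⊨ TSqf → ¬ MSMeasurable Lsqf M := by
  intro M _ hM
  rintro ⟨h, hh⟩
  exact Pool.Agent.Helper89.MSMain.no_measure hh

end Pool.Agent.Results.MP_c6a6a6_lc.NotMSMeasurable
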